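import Mathlib
import Pool.Agent.MP_0ebce1_al.Defs
import Pool.Agent.MP_0ebce1_al.Homog

set_option autoImplicit false

namespace Pool.Agent.Results.MP_0ebce1_al.Counter

open IsLocalRing Pool.Agent.MP_0ebce1_al

/-- There is a `2`-homogeneous noetherian local ring `R` for which `R → R / m ^ 2` is Golod and
`R → R / m ^ 3` is not Golod. -/
theorem result : ∃ (R : Type) (_ : CommRing R) (_ : IsLocalRing R) (_ : IsNoetherianRing R)
    (_ : IsLocalRing (R ⧸ maximalIdeal R ^ 2)) (_ : IsLocalRing (R ⧸ maximalIdeal R ^ 3)),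
    IsHomogeneous 2 R ∧ IsGolod R (R ⧸ maximalIdeal R ^ 2) ∧
      ¬ IsGolod R (R ⧸ maximalIdeal R ^ 3) :=
  ⟨RR, inferInstance, inferInstance, inferInstance, (inferInstance : IsLocalRing (SS (1 + 1))),
    (inferInstance : IsLocalRing (SS (2 + 1))), homog, golod_two, not_golod_three⟩

end Pool.Agent.Results.MP_0ebce1_al.Counter
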